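import Pool.Agent.Y465.SZ.Fin3

/-!
# Unreduced and reduced pages of Szabo's geometric spectral sequence

For every link diagram on the sphere, every choice `t` of orientations of the surgery arcs, every
base point `P` and all `k ≥ 2` the pages of Szabo's geometric spectral sequence satisfy
`E^k(L) = Ered^k(L, c){-1} ⊕ Ered^k(L, c){1}` as bigraded vector spaces over the field with two
elements, `c` the component through `P`.

All definitions are in `Pool.Agent.Y465.SZ.Base`, in the order in which they are used:

* a diagram is given by its crossings `E`, its circles without crossings `C` and the involution
  `mate` on the ends `E × Fin 4` of the strands at the crossings (cyclic order 0, 1, 2, 3 at every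
  crossing, the 0-resolution joins 0-3 and 1-2, the 1-resolution 0-1 and 2-3); Euler's formula
  `nFaces mate = |E| + 2 * nComps mate` says that it lies on the sphere;
* `Cfg mate × (C → Bool)` is the set of monomials: a state with labels x (`true`) and 1 (`false`) on
  its circles; `qC` is the quantum and `hdeg` the homological grading;
* `szD` is Szabo's differential, the sum over all configurations of the types A, B, C, D
  (`TypeABCD`) and E (`Star`, with all arcs pointing to the centre or all away from it); the Boolean
  `s` is the sign convention for the interlaced arcs in type C and the corresponding (mirror dual)
  convention in type D, both conventions are covered; as the ends may be numbered clockwise or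
  counterclockwise, both conventions for the quarter turn of dual arcs are covered as well;
* `EPage` is the page `Z^k / B^k` of the filtered complex in a given bigrading, `UPage` that of the
  complex of the diagram and `RPage` that of the reduced complex spanned by the monomials with label
  x at `P`, with quantum grading raised by one.

The first part of the statement is Szabo's theorem that his operator is a differential.  In the proof
of the second part an operator `nu` of bidegree `(0, 2)` plus terms of higher filtration is
constructed which commutes with the differential and satisfies `L nu + nu L = 1` for an operator `L`
of bidegree `(0, -2)` plus higher terms which commutes with the differential, maps to the reduced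
complex and vanishes on it; the map `(a, b) ↦ a + nu b` is then an isomorphism of filtered complexes
from the sum of two shifted copies of the reduced complex to the full complex.
-/

namespace Pool.Agent.Results.MP_e07446_gt.SzaboPages

open Pool.Agent.Y465.SZ

/-- Szabo's operator is a differential and its spectral sequence satisfies
`E^k(L) = Ered^k(L, c){-1} ⊕ Ered^k(L, c){1}` in every bigrading `(a, b)`, for all `k ≥ 2`, all link
diagrams, all base points and all decorations -/
theorem result (E C : Type) [Fintype E] [DecidableEq E] [Fintype C] [DecidableEq C]
    (mate : E × Fin 4 → E × Fin 4) (hinv : ∀ h, mate (mate h) = h) (hfix : ∀ h, mate h ≠ h)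
    (heuler : nFaces mate = Fintype.card E + 2 * nComps mate) (s : Bool) (t : E → Bool) :
    szC mate C s t * szC mate C s t = 0 ∧
      ∀ (np nm : ℤ) (P : (E × Fin 4) ⊕ C) (k : ℕ), 2 ≤ k → ∀ a b : ℤ,
        Nonempty (UPage mate C s t np nm k a b ≃ₗ[ZMod 2]
          (RPage mate C s t np nm P k a (b + 1) × RPage mate C s t np nm P k a (b - 1))) :=
  ⟨szC_sq E C mate hinv hfix heuler s t,
    fun np nm P k _ a b => full E C mate hinv hfix heuler s t np nm P k a b⟩

end Pool.Agent.Results.MP_e07446_gt.SzaboPages
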